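import Pool.Agent.L7h48.RT.Stm

/-! Project RT, part TTR. -/

namespace Pool.Agent.L7h96.RT
open Pool.Agent.L7h48.RT
open scoped Classical

theorem bdd {n c : ℕ} (x : Col n c) : n ∈ upperBounds
    {k : ℕ | ∃ K : (⊤ : SimpleGraph (Fin n)).Subgraph, K.coe.IsTree ∧
      Rainbow x K.spanningCoe ∧ K.verts.ncard = k} := by
  rintro k ⟨K, _, _, rfl⟩
  calc K.verts.ncard ≤ (Set.univ : Set (Fin n)).ncard :=
        Set.ncard_le_ncard (Set.subset_univ _) Set.finite_univ
    _ = n := by rw [Set.ncard_univ, Nat.card_eq_fintype_card, Fintype.card_fin]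

theorem s_TTR : S_TTR := by
  intro n c x
  refine ⟨csSup_le' (bdd x), ?_⟩
  intro H v hH
  obtain ⟨T', hle, hT'⟩ := (H.connectedComponentMk v).connected_toSimpleGraph.exists_isTree_le
  let K : (⊤ : SimpleGraph (Fin n)).Subgraph :=
    { verts := (H.connectedComponentMk v).supp
      Adj := fun a b => ∃ (ha : a ∈ (H.connectedComponentMk v).supp)
        (hb : b ∈ (H.connectedComponentMk v).supp), T'.Adj ⟨a, ha⟩ ⟨b, hb⟩
      adj_sub := by
        rintro a b ⟨ha, hb, h⟩
        rw [SimpleGraph.top_adj]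
        intro hab
        subst hab
        exact T'.loopless.irrefl _ h
      edge_vert := by
        rintro a b ⟨ha, _, _⟩
        exact ha
      symm := ⟨by
        rintro a b ⟨ha, hb, h⟩
        exact ⟨hb, ha, h.symm⟩⟩ }
  have hK : K.coe.IsTree := by
    have h : K.coe = T' := by
      ext a b
      constructor
      · rintro ⟨ha, hb, h⟩
        exact h
      · intro h
        exact ⟨a.2, b.2, h⟩
    rw [h]
    exact hT'
  have hle' : K.spanningCoe ≤ H := by
    intro a b hab
    obtain ⟨ha, hb, h⟩ := hab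
    exact hle h
  have hR : Rainbow x K.spanningCoe := by
    have hs := SimpleGraph.edgeSet_mono hle'
    exact ⟨fun e he => hH.1 e (hs he), fun e f he hf h => hH.2 e f (hs he) (hs hf) h⟩
  exact le_csSup ⟨n, bdd x⟩ ⟨K, hK, hR, rfl⟩

end Pool.Agent.L7h96.RT
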